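import Pool.Agent.N905.KL.Defs

/-!
# Comparison of two weighted sums (helper816 for KLP)
-/

set_option autoImplicit false

namespace Pool.Agent.N905.KL

open Pool.Agent.Helper894.Three

theorem W_nonneg {a b0 b2 vf vs va : ℝ} (ha : 0 ≤ a) (hb0 : 0 ≤ b0) (hb2 : 0 ≤ b2) (hf : 0 ≤ vf)
    (hs : 0 ≤ vs) (hv : 0 ≤ va) (f l : ℕ) (t : ℤ) (y : ℝ) : 0 ≤ W a b0 b2 vf vs va f l t y := by
  induction f generalizing l t y with
  | zero => exact hf
  | succ f ih =>
    cases l with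
    | zero =>
      rw [W]
      split_ifs
      · exact hs
      · exact hv
    | succ l =>
      rw [W]
      split_ifs
      · exact hs
      · exact add_nonneg (mul_nonneg ha (ih _ _ _)) (mul_nonneg hb0 (ih _ _ _))
      · exact add_nonneg (mul_nonneg ha (ih _ _ _)) (mul_nonneg hb2 (ih _ _ _))
      · exact add_nonneg (mul_nonneg ha (ih _ _ _)) le_rfl

theorem W_le {θ κ : ℝ} (hθ : 0 ≤ θ) (hκ : 1 ≤ κ) (f l : ℕ) (t : ℤ) (y : ℝ) (hy : 0 < y)
    (hf : y * (3 / 2) ^ l * 4 ^ (l + 1) ≤ 4 ^ f) :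
    W ((4 : ℝ) ^ (-θ)) (κ⁻¹ * (4 / 3 : ℝ) ^ (-θ)) (κ⁻¹ * (2 / 3 : ℝ) ^ (-θ)) 1 1 1 f l t y ≤
      (κ⁻¹) ^ l * W ((4 : ℝ) ^ (-θ)) ((4 / 3 : ℝ) ^ (-θ)) ((2 / 3 : ℝ) ^ (-θ)) 0 0 1 f l t y +
      y ^ (-θ) * W 1 1 1 1 1 0 f l t y := by
  have hκ0 : 0 ≤ κ⁻¹ := inv_nonneg.2 (by linarith)
  have hκ1 : κ⁻¹ ≤ 1 := inv_le_one_of_one_le₀ hκ
  have ha : 0 ≤ (4 : ℝ) ^ (-θ) := Real.rpow_nonneg (by norm_num) _
  have hb0 : 0 ≤ (4 / 3 : ℝ) ^ (-θ) := Real.rpow_nonneg (by norm_num) _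
  have hb2 : 0 ≤ (2 / 3 : ℝ) ^ (-θ) := Real.rpow_nonneg (by norm_num) _
  have small : ∀ z : ℝ, 0 < z → z ≤ 1 → 1 ≤ z ^ (-θ) := fun z h0 h1 =>
    Real.one_le_rpow_of_pos_of_le_one_of_nonpos h0 h1 (by linarith)
  induction f generalizing l t y with
  | zero =>
    have h1 : y ≤ 1 := by
      have h2 : (1 : ℝ) ≤ (3 / 2) ^ l := one_le_pow₀ (by norm_num)
      have h3 : (1 : ℝ) ≤ 4 ^ (l + 1) := one_le_pow₀ (by norm_num)
      rw [pow_zero] at hf
      calc y = y * 1 * 1 := by ring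
        _ ≤ y * (3 / 2) ^ l * 4 ^ (l + 1) := by gcongr
        _ ≤ 1 := hf
    have h2 := small y hy h1
    simp only [W]
    linarith
  | succ f ih =>
    cases l with
    | zero =>
      simp only [W]
      split_ifs with h1
      · have := small y hy h1
        simp only [pow_zero]
        linarith
      · simp only [pow_zero]
        linarith
    | succ l =>
      by_cases h1 : y ≤ 1
      · have h2 := small y hy h1
        simp only [W, if_pos h1]
        linarith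
      · have hA := ih (l + 1) (4 * t + 2) (y / 4) (by positivity) (by
          rw [pow_succ (4 : ℝ) f] at hf
          have : y / 4 * (3 / 2) ^ (l + 1) * 4 ^ (l + 1 + 1) =
            (y * (3 / 2) ^ (l + 1) * 4 ^ (l + 1 + 1)) / 4 := by ring
          rw [this]
          linarith)
        have e4 : (4 : ℝ) ^ (-θ) * (y / 4) ^ (-θ) = y ^ (-θ) := by
          rw [← Real.mul_rpow (by norm_num) (by positivity)]
          congr 1; ring
        have e0 : (4 / 3 : ℝ) ^ (-θ) * (y * (3 / 4)) ^ (-θ) = y ^ (-θ) := by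
          rw [← Real.mul_rpow (by norm_num) (by positivity)]
          congr 1; ring
        have e2 : (2 / 3 : ℝ) ^ (-θ) * (y * (3 / 2)) ^ (-θ) = y ^ (-θ) := by
          rw [← Real.mul_rpow (by norm_num) (by positivity)]
          congr 1; ring
        have hbd : ∀ c : ℝ, 0 < c → c ≤ 3 / 2 →
            y * c * (3 / 2) ^ l * 4 ^ (l + 1) ≤ 4 ^ f := by
          intro c hc0 hc
          have h3 : y * c * (3 / 2) ^ l * 4 ^ (l + 1) ≤ y * (3 / 2) * (3 / 2) ^ l * 4 ^ (l + 1) := by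
            gcongr
          have h4 : y * (3 / 2) * (3 / 2) ^ l * 4 ^ (l + 1) =
              (y * (3 / 2) ^ (l + 1) * 4 ^ (l + 1 + 1)) / 4 := by ring
          rw [pow_succ (4 : ℝ) f] at hf
          linarith
        have hA' := mul_le_mul_of_nonneg_left hA ha
        have hA'' : (4 : ℝ) ^ (-θ) * W ((4 : ℝ) ^ (-θ)) (κ⁻¹ * (4 / 3 : ℝ) ^ (-θ))
            (κ⁻¹ * (2 / 3 : ℝ) ^ (-θ)) 1 1 1 f (l + 1) (4 * t + 2) (y / 4) ≤
            (κ⁻¹) ^ (l + 1) * ((4 : ℝ) ^ (-θ) * W ((4 : ℝ) ^ (-θ)) ((4 / 3 : ℝ) ^ (-θ))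
              ((2 / 3 : ℝ) ^ (-θ)) 0 0 1 f (l + 1) (4 * t + 2) (y / 4)) +
            y ^ (-θ) * (1 * W 1 1 1 1 1 0 f (l + 1) (4 * t + 2) (y / 4)) := by
          refine hA'.trans (le_of_eq ?_)
          rw [← e4]; ring
        have key : ∀ (b c : ℝ) (s : ℤ), 0 ≤ b → 0 < c → c ≤ 3 / 2 →
            b * (y * c) ^ (-θ) = y ^ (-θ) →
            κ⁻¹ * b * W ((4 : ℝ) ^ (-θ)) (κ⁻¹ * (4 / 3 : ℝ) ^ (-θ))
              (κ⁻¹ * (2 / 3 : ℝ) ^ (-θ)) 1 1 1 f l s (y * c) ≤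
            (κ⁻¹) ^ (l + 1) * (b * W ((4 : ℝ) ^ (-θ)) ((4 / 3 : ℝ) ^ (-θ))
              ((2 / 3 : ℝ) ^ (-θ)) 0 0 1 f l s (y * c)) +
            y ^ (-θ) * (1 * W 1 1 1 1 1 0 f l s (y * c)) := by
          intro b c s hb hc0 hc he
          have h3 := ih l s (y * c) (by positivity) (hbd c hc0 hc)
          have h4 := mul_le_mul_of_nonneg_left h3 (mul_nonneg hκ0 hb)
          refine h4.trans ?_
          have h5 : 0 ≤ W 1 1 1 1 1 0 f l s (y * c) :=
            W_nonneg zero_le_one zero_le_one zero_le_one zero_le_one zero_le_one le_rfl _ _ _ _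
          have h6 : 0 ≤ y ^ (-θ) := Real.rpow_nonneg hy.le _
          have h7 : κ⁻¹ * b * ((κ⁻¹) ^ l * W ((4 : ℝ) ^ (-θ)) ((4 / 3 : ℝ) ^ (-θ))
              ((2 / 3 : ℝ) ^ (-θ)) 0 0 1 f l s (y * c) +
              (y * c) ^ (-θ) * W 1 1 1 1 1 0 f l s (y * c)) =
              (κ⁻¹) ^ (l + 1) * (b * W ((4 : ℝ) ^ (-θ)) ((4 / 3 : ℝ) ^ (-θ))
                ((2 / 3 : ℝ) ^ (-θ)) 0 0 1 f l s (y * c)) +
              κ⁻¹ * (y ^ (-θ) * W 1 1 1 1 1 0 f l s (y * c)) := by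
            rw [← he]; ring
          rw [h7]
          have h8 : κ⁻¹ * (y ^ (-θ) * W 1 1 1 1 1 0 f l s (y * c)) ≤
              1 * (y ^ (-θ) * W 1 1 1 1 1 0 f l s (y * c)) :=
            mul_le_mul_of_nonneg_right hκ1 (mul_nonneg h6 h5)
          linarith
        rw [W, W, W, if_neg h1, if_neg h1, if_neg h1]
        by_cases h3 : t % 3 = 0
        · simp only [if_pos h3]
          have := key _ (3 / 4) (4 * (t / 3)) hb0 (by norm_num) (by norm_num) e0
          rw [mul_add, mul_add]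
          linarith
        · by_cases h4 : t % 3 = 2
          · simp only [if_neg h3, if_pos h4]
            have := key _ (3 / 2) (2 * (t / 3) + 1) hb2 (by norm_num) (by norm_num) e2
            rw [mul_add, mul_add]
            linarith
          · simp only [if_neg h3, if_neg h4]
            rw [mul_add, mul_add]
            linarith

end Pool.Agent.N905.KL
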