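import Pool.Agent.Helper894.Three.Main

set_option autoImplicit false

namespace Pool.Agent.N905.KL

open Pool.Agent.Helper894.Three

/-- weighted number of endpoints of the expansion of the node `3 t + 2`: `f` is the fuel, `l` the
number of ternary digits of `t` which may be used, and `y` the factor by which the size may still
grow.  `a`, `b0`, `b2` are the weights of the three kinds of children; `vf`, `vs`, `va` are the
values at endpoints without fuel, at endpoints which are large enough and at endpoints without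
digits. -/
noncomputable def W (a b0 b2 vf vs va : ℝ) : ℕ → ℕ → ℤ → ℝ → ℝ
  | 0, _, _, _ => vf
  | _ + 1, 0, _, y => if y ≤ 1 then vs else va
  | f + 1, l + 1, t, y => if y ≤ 1 then vs else
      a * W a b0 b2 vf vs va f (l + 1) (4 * t + 2) (y / 4) +
      (if t % 3 = 0 then b0 * W a b0 b2 vf vs va f l (4 * (t / 3)) (y * (3 / 4))
      else if t % 3 = 2 then b2 * W a b0 b2 vf vs va f l (2 * (t / 3) + 1) (y * (3 / 2)) else 0)

theorem W_period (a b0 b2 vf vs va : ℝ) (f l : ℕ) (t k : ℤ) (y : ℝ) :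
    W a b0 b2 vf vs va f l (t + 3 ^ l * k) y = W a b0 b2 vf vs va f l t y := by
  induction f generalizing l t k y with
  | zero => rfl
  | succ f ih =>
    cases l with
    | zero => rfl
    | succ l =>
      rw [W, W]
      have e1 : 4 * (t + 3 ^ (l + 1) * k) + 2 = (4 * t + 2) + 3 ^ (l + 1) * (4 * k) := by ring
      have e0 : t + 3 ^ (l + 1) * k = t + 3 * (3 ^ l * k) := by ring
      have e2 : (t + 3 ^ (l + 1) * k) % 3 = t % 3 := by
        rw [e0]; omega
      have e3 : (t + 3 ^ (l + 1) * k) / 3 = t / 3 + 3 ^ l * k := by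
        rw [e0]
        omega
      have e4 : 4 * (t / 3 + 3 ^ l * k) = 4 * (t / 3) + 3 ^ l * (4 * k) := by ring
      have e5 : 2 * (t / 3 + 3 ^ l * k) + 1 = 2 * (t / 3) + 1 + 3 ^ l * (2 * k) := by ring
      rw [e1, e2, e3, e4, e5, ih, ih, ih]

/-- `n` is a node of the tree of `r` -/
def Node (r n : ℤ) : Prop := n ∈ Desc r ∧ n % 3 = 2

/-- superadditive functions on the tree of `r` -/
structure SupAdd (r : ℤ) (Φ : ℤ → ℝ) : Prop where
  nonneg : ∀ n, 0 ≤ Φ n
  one : ∀ t : ℤ, Node r (3 * t + 2) → Φ (4 * (3 * t + 2)) ≤ Φ (3 * t + 2)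
  two : ∀ (t : ℤ) (e : ℕ), Node r (3 * t + 2) → e ≤ 1 → (2 ^ e * (2 * t + 1)) % 3 = 2 →
    Φ (4 * (3 * t + 2)) + Φ (2 ^ e * (2 * t + 1)) ≤ Φ (3 * t + 2)

/-- the size invariant along the expansion -/
structure Inv (Z U V : ℝ) (l : ℕ) (n : ℤ) (y : ℝ) : Prop where
  hy : 1 / 4 < y
  hz : Z * (3 / 2) ^ l ≤ |(n : ℝ)| + 1
  hu : U ≤ |(n : ℝ)| * y * (1 - 1 / Z) ^ l
  hv : |(n : ℝ)| * y * (1 + 1 / Z) ^ l ≤ V

/-- weight of the descendants of `n` of size at most `X` -/
noncomputable def Ph (ω : ℤ → ℝ) (X : ℝ) (n : ℤ) : ℝ := ∑ x ∈ (DX_finite n X).toFinset, ω x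

end Pool.Agent.N905.KL
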