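import Pool.Agent.N905.KL.Defs

/-!
Project KLP (helper905), task KLP/4 (helper160): superadditive functions dominate the weighted
sums over the expansion.
-/

set_option autoImplicit false

namespace Pool.Agent.N905.KL

open Pool.Agent.Helper894.Three

section Aux

lemma Inv.nodigits {Z U V : ℝ} {l : ℕ} {n : ℤ} {y : ℝ} (h : Inv Z U V l n y) (hy : 1 < y) :
    Inv Z U V l (4 * n) (y / 4) := by
  have e1 : |((4 * n : ℤ) : ℝ)| = 4 * |(n : ℝ)| := by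
    push_cast
    rw [abs_mul, abs_of_pos (by norm_num : (0 : ℝ) < 4)]
  refine ⟨by linarith, ?_, ?_, ?_⟩
  · rw [e1]
    have := abs_nonneg (n : ℝ)
    linarith [h.hz]
  · rw [e1]
    have e2 : 4 * |(n : ℝ)| * (y / 4) = |(n : ℝ)| * y := by ring
    rw [e2]
    exact h.hu
  · rw [e1]
    have e2 : 4 * |(n : ℝ)| * (y / 4) = |(n : ℝ)| * y := by ring
    rw [e2]
    exact h.hv

/-- the step with a digit -/
lemma Inv.digit {Z U V : ℝ} (hZ : 2 ≤ Z) {l : ℕ} {t : ℤ} {y : ℝ}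
    (h : Inv Z U V (l + 1) (3 * t + 2) y) (hy : 1 < y) {n1 : ℤ} {y1 : ℝ}
    (hy1 : 3 / 4 * y ≤ y1)
    (hn1 : 2 * |3 * t + 2| + 2 ≤ 3 * |n1| + 3)
    (hny : |(n1 : ℝ)| * y1 ≤ |((3 * t + 2 : ℤ) : ℝ)| * y + y / 2)
    (hny' : |((3 * t + 2 : ℤ) : ℝ)| * y - y / 2 ≤ |(n1 : ℝ)| * y1) :
    Inv Z U V l n1 y1 := by
  have hZ0 : 0 < Z := by linarith
  have hinv : 1 / Z ≤ 1 / 2 := one_div_le_one_div_of_le (by norm_num) hZ
  have hinv0 : 0 < 1 / Z := by positivity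
  set m : ℝ := |((3 * t + 2 : ℤ) : ℝ)| with hm
  have hz := h.hz
  have hpow : (1 : ℝ) ≤ (3 / 2) ^ l := one_le_pow₀ (by norm_num)
  have hmZ : 3 / 2 * Z - 1 ≤ m := by
    have h1 : Z * (3 / 2) ≤ Z * (3 / 2) ^ (l + 1) := by
      rw [pow_succ]
      nlinarith
    linarith
  have hhalf : y / 2 ≤ m * y * (1 / Z) := by
    have h1 : Z / 2 ≤ m := by linarith
    have h2 : m * y * (1 / Z) = (m / Z) * y := by ring
    rw [h2]
    have h3 : 1 / 2 ≤ m / Z := by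
      rw [le_div_iff₀ hZ0]
      linarith
    nlinarith
  refine ⟨by linarith, ?_, ?_, ?_⟩
  · have h1 : (2 : ℝ) * m + 2 ≤ 3 * |(n1 : ℝ)| + 3 := by
      rw [hm]
      have h2 : ((2 * |3 * t + 2| + 2 : ℤ) : ℝ) ≤ ((3 * |n1| + 3 : ℤ) : ℝ) := by exact_mod_cast hn1
      push_cast at h2 ⊢
      exact h2
    have h3 : Z * (3 / 2) ^ (l + 1) = 3 / 2 * (Z * (3 / 2) ^ l) := by
      rw [pow_succ]
      ring
    rw [h3] at hz
    linarith
  · refine h.hu.trans ?_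
    rw [pow_succ, mul_comm ((1 - 1 / Z) ^ l), ← mul_assoc]
    apply mul_le_mul_of_nonneg_right _ (pow_nonneg (by linarith) l)
    refine le_trans ?_ hny'
    linarith
  · refine le_trans ?_ h.hv
    rw [pow_succ, mul_comm ((1 + 1 / Z) ^ l), ← mul_assoc]
    apply mul_le_mul_of_nonneg_right _ (pow_nonneg (by linarith) l)
    refine hny.trans ?_
    linarith

lemma abs_sub_abs_le' (a b : ℝ) : |a| ≤ |b| + |a - b| := by
  have := abs_sub_abs_le_abs_sub a b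
  linarith

lemma Inv.digit0 {Z U V : ℝ} (hZ : 2 ≤ Z) {l : ℕ} {t : ℤ} {y : ℝ}
    (h : Inv Z U V (l + 1) (3 * t + 2) y) (hy : 1 < y) :
    Inv Z U V l (2 * (2 * t + 1)) (y * (3 / 4)) := by
  have hy0 : 0 < y := by linarith
  have e1 : |((2 * (2 * t + 1) : ℤ) : ℝ)| * (y * (3 / 4)) = |3 * (t : ℝ) + 3 / 2| * y := by
    have e0 : |3 * (t : ℝ) + 3 / 2| = |((2 * (2 * t + 1) : ℤ) : ℝ)| * (3 / 4) := by
      have e3 : 3 * (t : ℝ) + 3 / 2 = ((2 * (2 * t + 1) : ℤ) : ℝ) * (3 / 4) := by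
        push_cast
        ring
      rw [e3, abs_mul, abs_of_pos (by norm_num : (0 : ℝ) < 3 / 4)]
    rw [e0]
    ring
  have e2 : |((3 * t + 2 : ℤ) : ℝ)| = |3 * (t : ℝ) + 2| := by push_cast; rfl
  refine Inv.digit hZ h hy (by linarith) ?_ ?_ ?_
  · rcases abs_cases (3 * t + 2) with h1 | h1 <;> rcases abs_cases (2 * (2 * t + 1)) with h2 | h2 <;>
      omega
  · rw [e1, e2]
    have h1 := abs_sub_abs_le' (3 * (t : ℝ) + 3 / 2) (3 * (t : ℝ) + 2)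
    have h2 : |3 * (t : ℝ) + 3 / 2 - (3 * (t : ℝ) + 2)| = 1 / 2 := by
      rw [show 3 * (t : ℝ) + 3 / 2 - (3 * (t : ℝ) + 2) = -(1 / 2) by ring, abs_neg,
        abs_of_pos (by norm_num)]
    rw [h2] at h1
    nlinarith
  · rw [e1, e2]
    have h1 := abs_sub_abs_le' (3 * (t : ℝ) + 2) (3 * (t : ℝ) + 3 / 2)
    have h2 : |3 * (t : ℝ) + 2 - (3 * (t : ℝ) + 3 / 2)| = 1 / 2 := by
      rw [show 3 * (t : ℝ) + 2 - (3 * (t : ℝ) + 3 / 2) = (1 / 2) by ring,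
        abs_of_pos (by norm_num)]
    rw [h2] at h1
    nlinarith

lemma Inv.digit2 {Z U V : ℝ} (hZ : 2 ≤ Z) {l : ℕ} {t : ℤ} {y : ℝ}
    (h : Inv Z U V (l + 1) (3 * t + 2) y) (hy : 1 < y) :
    Inv Z U V l (2 * t + 1) (y * (3 / 2)) := by
  have hy0 : 0 < y := by linarith
  have e1 : |((2 * t + 1 : ℤ) : ℝ)| * (y * (3 / 2)) = |3 * (t : ℝ) + 3 / 2| * y := by
    have e0 : |3 * (t : ℝ) + 3 / 2| = |((2 * t + 1 : ℤ) : ℝ)| * (3 / 2) := by
      have e3 : 3 * (t : ℝ) + 3 / 2 = ((2 * t + 1 : ℤ) : ℝ) * (3 / 2) := by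
        push_cast
        ring
      rw [e3, abs_mul, abs_of_pos (by norm_num : (0 : ℝ) < 3 / 2)]
    rw [e0]
    ring
  have e2 : |((3 * t + 2 : ℤ) : ℝ)| = |3 * (t : ℝ) + 2| := by push_cast; rfl
  refine Inv.digit hZ h hy (by linarith) ?_ ?_ ?_
  · rcases abs_cases (3 * t + 2) with h1 | h1 <;> rcases abs_cases (2 * t + 1) with h2 | h2 <;>
      omega
  · rw [e1, e2]
    have h1 := abs_sub_abs_le' (3 * (t : ℝ) + 3 / 2) (3 * (t : ℝ) + 2)
    have h2 : |3 * (t : ℝ) + 3 / 2 - (3 * (t : ℝ) + 2)| = 1 / 2 := by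
      rw [show 3 * (t : ℝ) + 3 / 2 - (3 * (t : ℝ) + 2) = -(1 / 2) by ring, abs_neg,
        abs_of_pos (by norm_num)]
    rw [h2] at h1
    nlinarith
  · rw [e1, e2]
    have h1 := abs_sub_abs_le' (3 * (t : ℝ) + 2) (3 * (t : ℝ) + 3 / 2)
    have h2 : |3 * (t : ℝ) + 2 - (3 * (t : ℝ) + 3 / 2)| = 1 / 2 := by
      rw [show 3 * (t : ℝ) + 2 - (3 * (t : ℝ) + 3 / 2) = (1 / 2) by ring,
        abs_of_pos (by norm_num)]
    rw [h2] at h1
    nlinarith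

/-- The general induction. -/
theorem expand_gen {r : ℤ} {Φ : ℤ → ℝ} (hΦ : SupAdd r Φ) {Z U V : ℝ} (hZ : 2 ≤ Z)
    (Gf : ℕ → ℕ → ℤ → ℝ → ℝ)
    (h0 : ∀ l t y, Node r (3 * t + 2) → Inv Z U V l (3 * t + 2) y → Gf 0 l t y ≤ Φ (3 * t + 2))
    (h1 : ∀ f t y, Node r (3 * t + 2) → Inv Z U V 0 (3 * t + 2) y →
      Gf (f + 1) 0 t y ≤ Φ (3 * t + 2))
    (h2 : ∀ f l t y, Node r (3 * t + 2) → Inv Z U V (l + 1) (3 * t + 2) y → y ≤ 1 →
      Gf (f + 1) (l + 1) t y ≤ Φ (3 * t + 2))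
    (h3 : ∀ f l t y, 1 < y → Gf (f + 1) (l + 1) t y = Gf f (l + 1) (4 * t + 2) (y / 4) +
      (if t % 3 = 0 then Gf f l (4 * (t / 3)) (y * (3 / 4))
      else if t % 3 = 2 then Gf f l (2 * (t / 3) + 1) (y * (3 / 2)) else 0)) :
    ∀ (f l : ℕ) (t : ℤ) (y : ℝ), Node r (3 * t + 2) → Inv Z U V l (3 * t + 2) y →
      Gf f l t y ≤ Φ (3 * t + 2) := by
  intro f
  induction f with
  | zero => exact h0
  | succ f ih =>
    intro l t y hn hinv
    cases l with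
    | zero => exact h1 f t y hn hinv
    | succ l =>
      by_cases hy : y ≤ 1
      · exact h2 f l t y hn hinv hy
      · push Not at hy
        rw [h3 f l t y hy]
        have e4 : 3 * (4 * t + 2) + 2 = 4 * (3 * t + 2) := by ring
        have n4 : Node r (3 * (4 * t + 2) + 2) := by
          rw [e4]
          refine ⟨desc_trans (desc_c1 _ (desc_self _)) hn.1, ?_⟩
          omega
        have i4 : Inv Z U V (l + 1) (3 * (4 * t + 2) + 2) (y / 4) := by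
          rw [e4]
          exact hinv.nodigits hy
        have k4 := ih (l + 1) (4 * t + 2) (y / 4) n4 i4
        rw [e4] at k4
        have nch : ∀ e : ℕ, (2 ^ e * (2 * t + 1)) % 3 = 2 → Node r (2 ^ e * (2 * t + 1)) :=
          fun e he => ⟨desc_trans (desc_c2 t e (desc_self _)) hn.1, he⟩
        by_cases t0 : t % 3 = 0
        · rw [if_pos t0]
          have e5 : 3 * (4 * (t / 3)) + 2 = 2 ^ 1 * (2 * t + 1) := by omega
          have e6 : (2 ^ 1 * (2 * t + 1)) % 3 = 2 := by omega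
          have n5 : Node r (3 * (4 * (t / 3)) + 2) := by
            rw [e5]
            exact nch 1 e6
          have i5 : Inv Z U V l (3 * (4 * (t / 3)) + 2) (y * (3 / 4)) := by
            rw [e5, pow_one]
            exact hinv.digit0 hZ hy
          have k5 := ih l (4 * (t / 3)) (y * (3 / 4)) n5 i5
          rw [e5] at k5
          exact (add_le_add k4 k5).trans (hΦ.two t 1 hn le_rfl e6)
        · rw [if_neg t0]
          by_cases t2 : t % 3 = 2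
          · rw [if_pos t2]
            have e5 : 3 * (2 * (t / 3) + 1) + 2 = 2 ^ 0 * (2 * t + 1) := by omega
            have e6 : (2 ^ 0 * (2 * t + 1)) % 3 = 2 := by omega
            have n5 : Node r (3 * (2 * (t / 3) + 1) + 2) := by
              rw [e5]
              exact nch 0 e6
            have i5 : Inv Z U V l (3 * (2 * (t / 3) + 1) + 2) (y * (3 / 2)) := by
              rw [e5, pow_zero, one_mul]
              exact hinv.digit2 hZ hy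
            have k5 := ih l (2 * (t / 3) + 1) (y * (3 / 2)) n5 i5
            rw [e5] at k5
            exact (add_le_add k4 k5).trans (hΦ.two t 0 hn (by norm_num) e6)
          · rw [if_neg t2, add_zero]
            exact k4.trans (hΦ.one t hn)

end Aux

theorem expand_count {r : ℤ} {Φ : ℤ → ℝ} (hΦ : SupAdd r Φ) {Z U V : ℝ} (hZ : 2 ≤ Z)
    (hU : 0 ≤ U) (hone : ∀ n, Node r n → |(n : ℝ)| ≤ 4 * V → 1 ≤ Φ n) (f l : ℕ) (t : ℤ) (y : ℝ)
    (hn : Node r (3 * t + 2)) (hinv : Inv Z U V l (3 * t + 2) y) :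
    W 1 1 1 1 1 0 f l t y ≤ Φ (3 * t + 2) := by
  have key : ∀ (l : ℕ) (t : ℤ) (y : ℝ), Node r (3 * t + 2) → Inv Z U V l (3 * t + 2) y →
      1 ≤ Φ (3 * t + 2) := by
    intro l t y hn hinv
    apply hone _ hn
    have h1 := hinv.hv
    have h2 := hinv.hy
    have h3 : (1 : ℝ) ≤ (1 + 1 / Z) ^ l := by
      apply one_le_pow₀
      have : 0 ≤ 1 / Z := by positivity
      linarith
    have h4 := abs_nonneg ((3 * t + 2 : ℤ) : ℝ)
    have h5 : |((3 * t + 2 : ℤ) : ℝ)| * (1 / 4) ≤ |((3 * t + 2 : ℤ) : ℝ)| * y :=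
      mul_le_mul_of_nonneg_left h2.le h4
    have h6 : |((3 * t + 2 : ℤ) : ℝ)| * y ≤ |((3 * t + 2 : ℤ) : ℝ)| * y * (1 + 1 / Z) ^ l :=
      le_mul_of_one_le_right (mul_nonneg h4 (by linarith)) h3
    linarith
  refine expand_gen hΦ hZ (W 1 1 1 1 1 0) ?_ ?_ ?_ ?_ f l t y hn hinv
  · intro l t y hn hinv
    exact key l t y hn hinv
  · intro f t y hn hinv
    rw [W]
    split_ifs
    · exact key 0 t y hn hinv
    · exact hΦ.nonneg _
  · intro f l t y hn hinv hy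
    rw [W, if_pos hy]
    exact key (l + 1) t y hn hinv
  · intro f l t y hy
    rw [W, if_neg (not_le.2 hy), one_mul, one_mul, one_mul]

theorem expand_alive {r : ℤ} {Φ : ℤ → ℝ} (hΦ : SupAdd r Φ) {Z U V : ℝ} (hZ : 2 ≤ Z)
    (hU : 0 ≤ U) {θ a1 a2 a3 : ℝ} (ha1 : 0 ≤ a1) (ha2 : 0 ≤ a2) (ha3 : 0 ≤ a3)
    (hal : ∀ n, Node r n → ∀ y : ℝ, 1 < y → U ≤ |(n : ℝ)| * y → |(n : ℝ)| * y ≤ V →
      a1 * y ^ θ - a2 * y ^ (2 : ℝ) - a3 * y ^ (1 / 2 : ℝ) ≤ Φ n)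
    (f l : ℕ) (t : ℤ) (y : ℝ)
    (hn : Node r (3 * t + 2)) (hinv : Inv Z U V l (3 * t + 2) y) :
    a1 * y ^ θ * W ((4 : ℝ) ^ (-θ)) ((4 / 3 : ℝ) ^ (-θ)) ((2 / 3 : ℝ) ^ (-θ)) 0 0 1 f l t y -
    a2 * y ^ (2 : ℝ) * W ((4 : ℝ) ^ (-(2 : ℝ))) ((4 / 3 : ℝ) ^ (-(2 : ℝ))) ((2 / 3 : ℝ) ^ (-(2 : ℝ)))
      0 0 1 f l t y -
    a3 * y ^ (1 / 2 : ℝ) * W ((4 : ℝ) ^ (-(1 / 2 : ℝ))) ((4 / 3 : ℝ) ^ (-(1 / 2 : ℝ)))
      ((2 / 3 : ℝ) ^ (-(1 / 2 : ℝ))) 0 0 1 f l t y ≤ Φ (3 * t + 2) := by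
  have p4 : ∀ (p y : ℝ), 0 < y → (y / 4) ^ p = (4 : ℝ) ^ (-p) * y ^ p := by
    intro p y hy
    rw [Real.div_rpow hy.le (by norm_num), Real.rpow_neg (by norm_num)]
    field_simp
  have p43 : ∀ (p y : ℝ), 0 < y → (y * (3 / 4)) ^ p = (4 / 3 : ℝ) ^ (-p) * y ^ p := by
    intro p y hy
    rw [Real.mul_rpow hy.le (by norm_num), Real.rpow_neg (by norm_num),
      ← Real.inv_rpow (by norm_num)]
    norm_num
    ring
  have p23 : ∀ (p y : ℝ), 0 < y → (y * (3 / 2)) ^ p = (2 / 3 : ℝ) ^ (-p) * y ^ p := by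
    intro p y hy
    rw [Real.mul_rpow hy.le (by norm_num), Real.rpow_neg (by norm_num),
      ← Real.inv_rpow (by norm_num)]
    norm_num
    ring
  refine expand_gen hΦ hZ (fun f l t y =>
    a1 * y ^ θ * W ((4 : ℝ) ^ (-θ)) ((4 / 3 : ℝ) ^ (-θ)) ((2 / 3 : ℝ) ^ (-θ)) 0 0 1 f l t y -
    a2 * y ^ (2 : ℝ) * W ((4 : ℝ) ^ (-(2 : ℝ))) ((4 / 3 : ℝ) ^ (-(2 : ℝ))) ((2 / 3 : ℝ) ^ (-(2 : ℝ)))
      0 0 1 f l t y -
    a3 * y ^ (1 / 2 : ℝ) * W ((4 : ℝ) ^ (-(1 / 2 : ℝ))) ((4 / 3 : ℝ) ^ (-(1 / 2 : ℝ)))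
      ((2 / 3 : ℝ) ^ (-(1 / 2 : ℝ))) 0 0 1 f l t y) ?_ ?_ ?_ ?_ f l t y hn hinv
  · intro l t y hn hinv
    simp only [W, mul_zero, sub_zero]
    exact hΦ.nonneg _
  · intro f t y hn hinv
    simp only [W]
    split_ifs with hy
    · simp only [mul_zero, sub_zero]
      exact hΦ.nonneg _
    · push Not at hy
      simp only [mul_one]
      apply hal _ hn y hy
      · have := hinv.hu
        rwa [pow_zero, mul_one] at this
      · have := hinv.hv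
        rwa [pow_zero, mul_one] at this
  · intro f l t y hn hinv hy
    simp only [W, if_pos hy, mul_zero, sub_zero]
    exact hΦ.nonneg _
  · intro f l t y hy
    have hy0 : 0 < y := by linarith
    simp only [W, if_neg (not_le.2 hy)]
    rw [p4 θ y hy0, p4 2 y hy0, p4 (1 / 2) y hy0, p43 θ y hy0, p43 2 y hy0, p43 (1 / 2) y hy0,
      p23 θ y hy0, p23 2 y hy0, p23 (1 / 2) y hy0]
    by_cases t0 : t % 3 = 0
    · simp only [if_pos t0]
      ring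
    · simp only [if_neg t0]
      by_cases t2 : t % 3 = 2
      · simp only [if_pos t2]
        ring
      · simp only [if_neg t2]
        ring

end Pool.Agent.N905.KL
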