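import Pool.Agent.N905.KL.Defs

/-!
Project KLP (helper905): sum of the weights over the residues modulo `3 ^ l`.
-/

set_option autoImplicit false

namespace Pool.Agent.N905.KL

open Pool.Agent.Helper894.Three

/-- sums of periodic functions are invariant under affine substitutions -/
theorem sum_affine {g : ℤ → ℝ} {P : ℕ} (hP : 0 < P) (hg : ∀ t k : ℤ, g (t + P * k) = g t)
    (a b : ℤ) (ha : IsCoprime a (P : ℤ)) :
    ∑ s ∈ Finset.range P, g (a * s + b) = ∑ s ∈ Finset.range P, g s := by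
  have : NeZero P := ⟨hP.ne'⟩
  set G : ZMod P → ℝ := fun z => g (z.val : ℤ) with hG
  have hgG : ∀ t : ℤ, g t = G (t : ZMod P) := by
    intro t
    have h1 : (((t : ZMod P).val : ℕ) : ℤ) = t % P := ZMod.val_intCast t
    rw [hG]
    show g t = g (((t : ZMod P).val : ℕ) : ℤ)
    rw [h1]
    have h2 := hg (t % P) (t / P)
    rwa [Int.emod_add_mul_ediv] at h2
  have hsum : ∀ F : ZMod P → ℝ, ∑ s ∈ Finset.range P, F ((s : ℕ) : ZMod P) = ∑ z : ZMod P, F z := by
    intro F
    refine Finset.sum_bij' (fun s _ => ((s : ℕ) : ZMod P)) (fun z _ => z.val) ?_ ?_ ?_ ?_ ?_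
    · intro s _; exact Finset.mem_univ _
    · intro z _; exact Finset.mem_range.2 (ZMod.val_lt z)
    · intro s hs; exact ZMod.val_cast_of_lt (Finset.mem_range.1 hs)
    · intro z _; exact ZMod.natCast_zmod_val z
    · intro s _; rfl
  have h1 : ∑ s ∈ Finset.range P, g (a * s + b) =
      ∑ z : ZMod P, G ((a : ZMod P) * z + (b : ZMod P)) := by
    rw [← hsum fun z => G ((a : ZMod P) * z + (b : ZMod P))]
    refine Finset.sum_congr rfl fun s _ => ?_
    rw [hgG]
    push_cast
    rfl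
  have h2 : ∑ s ∈ Finset.range P, g s = ∑ z : ZMod P, G z := by
    rw [← hsum]
    refine Finset.sum_congr rfl fun s _ => ?_
    rw [hgG]
    push_cast
    rfl
  rw [h1, h2]
  have hu : IsUnit (a : ZMod P) := by
    obtain ⟨u, v, huv⟩ := ha
    have h3 := congrArg (fun t : ℤ => (t : ZMod P)) huv
    simp only [Int.cast_add, Int.cast_mul, Int.cast_natCast, ZMod.natCast_self, mul_zero,
      add_zero, Int.cast_one] at h3
    exact IsUnit.of_mul_eq_one _ ((mul_comm _ _).trans h3)
  obtain ⟨u, hu⟩ := hu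
  rw [← hu]
  exact Fintype.sum_equiv ((Units.mulLeft u).trans (Equiv.addRight (b : ZMod P))) _ _
    fun z => rfl

theorem sum_three (F : ℕ → ℝ) (n : ℕ) : ∑ t ∈ Finset.range (3 * n), F t =
    ∑ u ∈ Finset.range n, (F (3 * u) + F (3 * u + 1) + F (3 * u + 2)) := by
  induction n with
  | zero => simp
  | succ n ih =>
    rw [Finset.sum_range_succ, ← ih, show 3 * (n + 1) = 3 * n + 1 + 1 + 1 by ring,
      Finset.sum_range_succ, Finset.sum_range_succ, Finset.sum_range_succ]
    ring

theorem first_moment {a b0 b2 G : ℝ} (ha : 0 ≤ a) (hb0 : 0 ≤ b0) (hb2 : 0 ≤ b2) (hG : 0 < G)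
    (h : a + (b0 + b2) / (3 * G) ≤ 1) (f l : ℕ) (y : ℝ) :
    ∑ t ∈ Finset.range (3 ^ l), W a b0 b2 0 0 1 f l (t : ℤ) y ≤ (3 * G) ^ l := by
  induction f generalizing l y with
  | zero =>
    have : ∑ t ∈ Finset.range (3 ^ l), W a b0 b2 0 0 1 0 l (t : ℤ) y = 0 :=
      Finset.sum_eq_zero fun t _ => rfl
    rw [this]
    positivity
  | succ f ih =>
    cases l with
    | zero =>
      rw [pow_zero, pow_zero, Finset.sum_range_one, W]
      split_ifs
      · exact zero_le_one
      · exact le_rfl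
    | succ l =>
      by_cases hy : y ≤ 1
      · have : ∑ t ∈ Finset.range (3 ^ (l + 1)), W a b0 b2 0 0 1 (f + 1) (l + 1) (t : ℤ) y = 0 :=
          Finset.sum_eq_zero fun t _ => by rw [W, if_pos hy]
        rw [this]
        positivity
      · have hW : ∀ t : ℕ, W a b0 b2 0 0 1 (f + 1) (l + 1) (t : ℤ) y =
            a * W a b0 b2 0 0 1 f (l + 1) (4 * (t : ℤ) + 2) (y / 4) +
            (if (t : ℤ) % 3 = 0 then b0 * W a b0 b2 0 0 1 f l (4 * ((t : ℤ) / 3)) (y * (3 / 4))
            else if (t : ℤ) % 3 = 2 then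
              b2 * W a b0 b2 0 0 1 f l (2 * ((t : ℤ) / 3) + 1) (y * (3 / 2)) else 0) := by
          intro t
          rw [W, if_neg hy]
        rw [Finset.sum_congr rfl fun t _ => hW t, Finset.sum_add_distrib, ← Finset.mul_sum]
        have hcop4 : ∀ k : ℕ, IsCoprime (4 : ℤ) ((3 ^ k : ℕ) : ℤ) := by
          intro k
          push_cast
          exact IsCoprime.pow_right (by norm_num)
        have hcop2 : ∀ k : ℕ, IsCoprime (2 : ℤ) ((3 ^ k : ℕ) : ℤ) := by
          intro k
          push_cast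
          exact IsCoprime.pow_right (by norm_num)
        have hper : ∀ (k : ℕ) (z : ℝ) (t j : ℤ), W a b0 b2 0 0 1 f k (t + ((3 ^ k : ℕ) : ℤ) * j) z =
            W a b0 b2 0 0 1 f k t z := by
          intro k z t j
          push_cast
          exact W_period _ _ _ _ _ _ _ _ _ _ _
        have e1 : ∑ t ∈ Finset.range (3 ^ (l + 1)),
            W a b0 b2 0 0 1 f (l + 1) (4 * (t : ℤ) + 2) (y / 4) =
            ∑ t ∈ Finset.range (3 ^ (l + 1)), W a b0 b2 0 0 1 f (l + 1) (t : ℤ) (y / 4) :=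
          sum_affine (g := fun t => W a b0 b2 0 0 1 f (l + 1) t (y / 4)) (by positivity)
            (fun t j => hper _ _ t j) 4 2 (hcop4 _)
        have e2 : ∑ t ∈ Finset.range (3 ^ (l + 1)),
            (if (t : ℤ) % 3 = 0 then b0 * W a b0 b2 0 0 1 f l (4 * ((t : ℤ) / 3)) (y * (3 / 4))
            else if (t : ℤ) % 3 = 2 then
              b2 * W a b0 b2 0 0 1 f l (2 * ((t : ℤ) / 3) + 1) (y * (3 / 2)) else 0) =
            b0 * ∑ u ∈ Finset.range (3 ^ l), W a b0 b2 0 0 1 f l (u : ℤ) (y * (3 / 4)) +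
            b2 * ∑ u ∈ Finset.range (3 ^ l), W a b0 b2 0 0 1 f l (u : ℤ) (y * (3 / 2)) := by
          have h4 : ∑ u ∈ Finset.range (3 ^ l), W a b0 b2 0 0 1 f l (4 * (u : ℤ) + 0) (y * (3 / 4)) =
              ∑ u ∈ Finset.range (3 ^ l), W a b0 b2 0 0 1 f l (u : ℤ) (y * (3 / 4)) :=
            sum_affine (g := fun t => W a b0 b2 0 0 1 f l t (y * (3 / 4))) (by positivity)
              (fun t j => hper _ _ t j) 4 0 (hcop4 _)
          have h2 : ∑ u ∈ Finset.range (3 ^ l), W a b0 b2 0 0 1 f l (2 * (u : ℤ) + 1) (y * (3 / 2)) =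
              ∑ u ∈ Finset.range (3 ^ l), W a b0 b2 0 0 1 f l (u : ℤ) (y * (3 / 2)) :=
            sum_affine (g := fun t => W a b0 b2 0 0 1 f l t (y * (3 / 2))) (by positivity)
              (fun t j => hper _ _ t j) 2 1 (hcop2 _)
          rw [show 3 ^ (l + 1) = 3 * 3 ^ l by ring, sum_three, ← h4, ← h2, Finset.mul_sum,
            Finset.mul_sum, ← Finset.sum_add_distrib]
          refine Finset.sum_congr rfl fun u _ => ?_
          have a1 : (((3 * u : ℕ) : ℤ)) % 3 = 0 := by push_cast; omega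
          have a2 : (((3 * u + 1 : ℕ) : ℤ)) % 3 = 1 := by push_cast; omega
          have a3 : (((3 * u + 2 : ℕ) : ℤ)) % 3 = 2 := by push_cast; omega
          have a4 : (((3 * u : ℕ) : ℤ)) / 3 = u := by push_cast; omega
          have a5 : (((3 * u + 2 : ℕ) : ℤ)) / 3 = u := by push_cast; omega
          rw [a1, a2, a3, a4, a5]
          norm_num
        rw [e1, e2]
        have i1 := ih (l + 1) (y / 4)
        have i2 := ih l (y * (3 / 4))
        have i3 := ih l (y * (3 / 2))
        have j1 := mul_le_mul_of_nonneg_left i1 ha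
        have j2 := mul_le_mul_of_nonneg_left i2 hb0
        have j3 := mul_le_mul_of_nonneg_left i3 hb2
        have hpos : 0 < (3 * G) ^ (l + 1) := by positivity
        have k1 : a * (3 * G) ^ (l + 1) + (b0 * (3 * G) ^ l + b2 * (3 * G) ^ l) =
            (a + (b0 + b2) / (3 * G)) * (3 * G) ^ (l + 1) := by
          rw [pow_succ]
          field_simp
        calc _ ≤ a * (3 * G) ^ (l + 1) + (b0 * (3 * G) ^ l + b2 * (3 * G) ^ l) := by linarith
          _ = (a + (b0 + b2) / (3 * G)) * (3 * G) ^ (l + 1) := k1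
          _ ≤ 1 * (3 * G) ^ (l + 1) := mul_le_mul_of_nonneg_right h hpos.le
          _ = _ := one_mul _

end Pool.Agent.N905.KL
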