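import Pool.Agent.N905.KL.Defs

set_option autoImplicit false

namespace Pool.Agent.N905.KL

open Pool.Agent.Helper894.Three

namespace NegAux

/-- sums of periodic functions are invariant under affine substitutions -/
theorem sum_affine {g : ℤ → ℝ} {P : ℕ} (hP : 0 < P) (hg : ∀ t k : ℤ, g (t + P * k) = g t)
    (a b : ℤ) (ha : IsCoprime a (P : ℤ)) :
    ∑ s ∈ Finset.range P, g (a * s + b) = ∑ s ∈ Finset.range P, g s := by
  have hP' : (0 : ℤ) < P := by exact_mod_cast hP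
  have hmod : ∀ t : ℤ, g (t % P) = g t := by
    intro t
    have h := hg (t % P) (t / P)
    rw [Int.emod_add_mul_ediv] at h
    exact h.symm
  have hnn : ∀ t : ℤ, 0 ≤ t % P := fun t => Int.emod_nonneg _ hP'.ne'
  have hlt : ∀ t : ℤ, t % P < P := fun t => Int.emod_lt_of_pos _ hP'
  have hcast : ∀ t : ℤ, (((t % P).toNat : ℕ) : ℤ) = t % P := fun t => Int.toNat_of_nonneg (hnn t)
  -- the map
  have hmaps : ∀ s ∈ Finset.range P, ((a * s + b) % P).toNat ∈ Finset.range P := by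
    intro s _
    rw [Finset.mem_range]
    have h1 := hlt (a * s + b)
    have h2 := hcast (a * s + b)
    omega
  have hinj : ∀ s ∈ Finset.range P, ∀ s' ∈ Finset.range P,
      ((a * s + b) % P).toNat = ((a * s' + b) % P).toNat → s = s' := by
    intro s hs s' hs' h
    rw [Finset.mem_range] at hs hs'
    have h1 : (a * s + b) % P = (a * s' + b) % P := by
      rw [← hcast (a * s + b), ← hcast (a * s' + b), h]
    have h2 : (P : ℤ) ∣ (a * s' + b) - (a * s + b) := Int.ModEq.dvd h1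
    have h3 : (P : ℤ) ∣ a * ((s' : ℤ) - s) := by
      have : (a * s' + b) - (a * s + b) = a * ((s' : ℤ) - s) := by ring
      rwa [this] at h2
    have h4 : (P : ℤ) ∣ (s' : ℤ) - s := ha.symm.dvd_of_dvd_mul_left h3
    obtain ⟨k, hk⟩ := h4
    have hk0 : k = 0 := by
      by_contra hne
      rcases lt_or_gt_of_ne hne with h5 | h5
      · have : (P : ℤ) * k ≤ P * (-1) := by
          apply mul_le_mul_of_nonneg_left _ hP'.le
          omega
        have e : (s' : ℤ) - s > -P := by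
          have : (s : ℤ) < P := by exact_mod_cast hs
          have : (0 : ℤ) ≤ s' := by positivity
          omega
        linarith
      · have : (P : ℤ) * 1 ≤ P * k := by
          apply mul_le_mul_of_nonneg_left _ hP'.le
          omega
        have e : (s' : ℤ) - s < P := by
          have : (s' : ℤ) < P := by exact_mod_cast hs'
          have : (0 : ℤ) ≤ s := by positivity
          omega
        linarith
    subst hk0
    have : (s' : ℤ) = s := by linarith
    exact_mod_cast this.symm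
  have himg : Finset.image (fun s : ℕ => ((a * s + b) % P).toNat) (Finset.range P) =
      Finset.range P := by
    apply Finset.eq_of_subset_of_card_le
    · intro x hx
      rw [Finset.mem_image] at hx
      obtain ⟨s, hs, rfl⟩ := hx
      exact hmaps s hs
    · rw [Finset.card_image_of_injOn]
      intro s hs s' hs' h
      exact hinj s hs s' hs' h
  calc ∑ s ∈ Finset.range P, g (a * s + b)
      = ∑ s ∈ Finset.range P, g ((((a * s + b) % P).toNat : ℕ) : ℤ) := by
        apply Finset.sum_congr rfl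
        intro s _
        rw [hcast, hmod]
    _ = ∑ x ∈ Finset.image (fun s : ℕ => ((a * s + b) % P).toNat) (Finset.range P), g (x : ℤ) := by
        rw [Finset.sum_image]
        intro s hs s' hs' h
        exact hinj s hs s' hs' h
    _ = ∑ s ∈ Finset.range P, g s := by rw [himg]

theorem W_pos {a b0 b2 : ℝ} (ha : 0 < a) (hb0 : 0 < b0) (hb2 : 0 < b2) (f l : ℕ) (t : ℤ) (y : ℝ) :
    0 < W a b0 b2 1 1 1 f l t y := by
  induction f generalizing l t y with
  | zero => rw [W]; exact one_pos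
  | succ f ih =>
    cases l with
    | zero => rw [W]; split_ifs <;> exact one_pos
    | succ l =>
      rw [W]
      have h1 := ih (l + 1) (4 * t + 2) (y / 4)
      have h2 := ih l (4 * (t / 3)) (y * (3 / 4))
      have h3 := ih l (2 * (t / 3) + 1) (y * (3 / 2))
      split_ifs <;> positivity

/-- Jensen for `x ^ (-q)` -/
theorem jens {a b T1 T2 A B : ℝ} (ha : 0 < a) (hb : 0 < b) (h1 : 0 < T1) (h2 : 0 < T2)
    (hA : 0 < A) (hB : 0 < B) (q : ℕ) :
    ((a * A + b * B)⁻¹) ^ q ≤ ((a * T1 + b * T2)⁻¹) ^ q *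
      (a * T1 / (a * T1 + b * T2) * (T1 * A⁻¹) ^ q + b * T2 / (a * T1 + b * T2) * (T2 * B⁻¹) ^ q) := by
  set T := a * T1 + b * T2 with hT
  have hTp : 0 < T := by positivity
  have hx : A / T1 ∈ Set.Ioi (0 : ℝ) := div_pos hA h1
  have hy : B / T2 ∈ Set.Ioi (0 : ℝ) := div_pos hB h2
  have hw1 : 0 ≤ a * T1 / T := by positivity
  have hw2 : 0 ≤ b * T2 / T := by positivity
  have hw : a * T1 / T + b * T2 / T = 1 := by rw [← add_div]; exact div_self hTp.ne'
  have hc := (convexOn_zpow (𝕜 := ℝ) (-(q : ℤ))).2 hx hy hw1 hw2 hw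
  simp only [smul_eq_mul, zpow_neg, zpow_natCast] at hc
  have e1 : a * T1 / T * (A / T1) + b * T2 / T * (B / T2) = (a * A + b * B) / T := by
    field_simp
  rw [e1] at hc
  have e2 : (((a * A + b * B) / T) ^ q)⁻¹ = ((a * A + b * B)⁻¹) ^ q * T ^ q := by
    rw [div_pow, inv_div, inv_pow, div_eq_mul_inv, mul_comm]
  have e3 : ((A / T1) ^ q)⁻¹ = (T1 * A⁻¹) ^ q := by
    rw [← inv_pow, inv_div, div_eq_mul_inv]
  have e4 : ((B / T2) ^ q)⁻¹ = (T2 * B⁻¹) ^ q := by
    rw [← inv_pow, inv_div, div_eq_mul_inv]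
  rw [e2, e3, e4] at hc
  have hTq : 0 < T ^ q := by positivity
  calc ((a * A + b * B)⁻¹) ^ q = (T⁻¹) ^ q * (((a * A + b * B)⁻¹) ^ q * T ^ q) := by
        rw [inv_pow T]; field_simp
    _ ≤ _ := mul_le_mul_of_nonneg_left hc (by positivity)

/-- the sum over a full period of `3 ^ (l + 1)` split in residues mod 3 -/
theorem sum_three (g : ℤ → ℝ) (l : ℕ) :
    ∑ s ∈ Finset.range (3 ^ (l + 1)), g s =
      ∑ i ∈ Finset.range 3, ∑ s ∈ Finset.range (3 ^ l), g (i + 3 * s) := by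
  have e : (3 : ℕ) ^ (l + 1) = 3 ^ l * 3 := by ring
  rw [e]
  generalize 3 ^ l = M
  induction M with
  | zero => simp
  | succ M ih =>
    have e : (M + 1) * 3 = M * 3 + 1 + 1 + 1 := by ring
    rw [e, Finset.sum_range_succ, Finset.sum_range_succ, Finset.sum_range_succ, ih]
    simp only [Finset.sum_range_succ, Finset.sum_range_zero]
    push_cast
    have e0 : g ((M : ℤ) * 3) = g (0 + 3 * M) := by congr 1; ring
    have e1 : g ((M : ℤ) * 3 + 1) = g (1 + 3 * M) := by congr 1; ring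
    have e2 : g ((M : ℤ) * 3 + 2) = g (2 + 3 * M) := by congr 1; ring
    simp only [e0, e1, e2]
    ring

theorem coprime_aux {a : ℤ} (ha : a = 4 ∨ a = 2) (l : ℕ) : IsCoprime a (((3 : ℕ) ^ l : ℕ) : ℤ) := by
  push_cast
  apply IsCoprime.pow_right
  rcases ha with rfl | rfl
  · exact ⟨1, -1, by norm_num⟩
  · exact ⟨-1, 1, by norm_num⟩

/-- the part of the sum with one more digit -/
theorem same_sum {h : ℕ} {c : ℕ → ℝ} {q : ℕ} {a b0 b2 C : ℝ}
    (hc : ∀ m < 3 ^ (h + 1), 0 < c m) (l m : ℕ) (y : ℝ) (f : ℕ)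
    (ih : ∀ m < 3 ^ (h + 1), ∑ s ∈ Finset.range (3 ^ (l + 1)),
      ((W a b0 b2 1 1 1 f (l + 1) ((m + 3 ^ (h + 1) * s : ℕ) : ℤ) y)⁻¹) ^ q ≤
      3 ^ (l + 1) * (C / c m) ^ q) :
    ∑ s ∈ Finset.range (3 ^ (l + 1)), (c ((4 * m + 2) % 3 ^ (h + 1)) *
      (W a b0 b2 1 1 1 f (l + 1) (4 * ((m + 3 ^ (h + 1) * s : ℕ) : ℤ) + 2) y)⁻¹) ^ q ≤
      3 ^ (l + 1) * C ^ q := by
  set N := 3 ^ (h + 1) with hN
  have hNp : 0 < N := by positivity
  set m4 := (4 * m + 2) % N with hm4
  have hlt : m4 < N := Nat.mod_lt _ hNp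
  set j := (4 * m + 2) / N with hj
  have hdm : 4 * m + 2 = m4 + N * j := (Nat.mod_add_div _ _).symm
  set g : ℤ → ℝ := fun s => (c m4 * (W a b0 b2 1 1 1 f (l + 1) (m4 + N * s) y)⁻¹) ^ q with hg
  have hper : ∀ t k : ℤ, g (t + ((3 ^ (l + 1) : ℕ) : ℤ) * k) = g t := by
    intro t k
    simp only [hg]
    have e : (m4 : ℤ) + N * (t + ((3 ^ (l + 1) : ℕ) : ℤ) * k) =
        (m4 + N * t) + 3 ^ (l + 1) * (N * k) := by
      push_cast; ring
    rw [e, W_period]
  have h1 := sum_affine (g := g) (P := 3 ^ (l + 1)) (by positivity) hper 4 j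
    (coprime_aux (Or.inl rfl) _)
  have h2 : ∀ s : ℕ, (c m4 *
      (W a b0 b2 1 1 1 f (l + 1) (4 * ((m + N * s : ℕ) : ℤ) + 2) y)⁻¹) ^ q = g (4 * s + j) := by
    intro s
    simp only [hg]
    have e : (4 * ((m + N * s : ℕ) : ℤ) + 2) = m4 + N * (4 * s + j) := by
      have : ((4 * m + 2 : ℕ) : ℤ) = ((m4 + N * j : ℕ) : ℤ) := by rw [hdm]
      push_cast at this ⊢
      linarith
    rw [e]
  rw [Finset.sum_congr rfl fun s _ => h2 s, h1]
  have h3 : ∀ s : ℕ, g s = c m4 ^ q *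
      ((W a b0 b2 1 1 1 f (l + 1) ((m4 + N * s : ℕ) : ℤ) y)⁻¹) ^ q := by
    intro s
    simp only [hg]
    rw [mul_pow]
    push_cast
    rfl
  rw [Finset.sum_congr rfl fun s _ => h3 s, ← Finset.mul_sum]
  have hcp := hc m4 hlt
  calc c m4 ^ q * ∑ s ∈ Finset.range (3 ^ (l + 1)),
        ((W a b0 b2 1 1 1 f (l + 1) ((m4 + N * s : ℕ) : ℤ) y)⁻¹) ^ q
      ≤ c m4 ^ q * (3 ^ (l + 1) * (C / c m4) ^ q) :=
        mul_le_mul_of_nonneg_left (ih m4 hlt) (by positivity)
    _ = 3 ^ (l + 1) * C ^ q := by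
        rw [div_pow]; field_simp

/-- the part of the sum with one digit used -/
theorem next_sum {h : ℕ} {c tc : ℕ → ℝ} {q : ℕ} {a b0 b2 C : ℝ} (htc : ∀ m < 3 ^ h, 0 < tc m) (hC0 : 0 ≤ C)
    (hm : ∀ m < 3 ^ h, ∑ i ∈ Finset.range 3, (tc m / c (m + 3 ^ h * i)) ^ q ≤ 3)
    (l : ℕ) (y : ℝ) (f : ℕ)
    (ih : ∀ m < 3 ^ (h + 1), ∑ s ∈ Finset.range (3 ^ l),
      ((W a b0 b2 1 1 1 f l ((m + 3 ^ (h + 1) * s : ℕ) : ℤ) y)⁻¹) ^ q ≤
      3 ^ l * (C / c m) ^ q) (α v : ℕ) (hα : (α : ℤ) = 4 ∨ (α : ℤ) = 2) (z : ℕ → ℤ)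
    (hz : ∀ s : ℕ, z s = (v : ℤ) + 3 ^ h * (α * s)) :
    ∑ s ∈ Finset.range (3 ^ (l + 1)), (tc (v % 3 ^ h) *
      (W a b0 b2 1 1 1 f l (z s) y)⁻¹) ^ q ≤ 3 ^ (l + 1) * C ^ q := by
  set N := 3 ^ h with hN
  have hNp : 0 < N := by positivity
  set u := v % N with hu
  have hlt : u < N := Nat.mod_lt _ hNp
  set j := v / N with hj
  have hdm : v = u + N * j := (Nat.mod_add_div _ _).symm
  set g : ℤ → ℝ := fun s => (tc u * (W a b0 b2 1 1 1 f l (u + N * s) y)⁻¹) ^ q with hg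
  have hper0 : ∀ t k : ℤ, g (t + 3 ^ l * k) = g t := by
    intro t k
    simp only [hg]
    have e : (u : ℤ) + N * (t + 3 ^ l * k) = (u + N * t) + 3 ^ l * (N * k) := by
      ring
    rw [e, W_period]
  have hper : ∀ t k : ℤ, g (t + ((3 ^ (l + 1) : ℕ) : ℤ) * k) = g t := by
    intro t k
    have e : t + ((3 ^ (l + 1) : ℕ) : ℤ) * k = t + 3 ^ l * (3 * k) := by
      push_cast; ring
    rw [e, hper0]
  have h1 := sum_affine (g := g) (P := 3 ^ (l + 1)) (by positivity) hper α j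
    (coprime_aux hα _)
  have h2 : ∀ s : ℕ, (tc u * (W a b0 b2 1 1 1 f l (z s) y)⁻¹) ^ q = g (α * s + j) := by
    intro s
    simp only [hg]
    have e : z s = u + N * (α * s + j) := by
      have : ((v : ℕ) : ℤ) = ((u + N * j : ℕ) : ℤ) := by rw [← hdm]
      rw [hz s, this]
      rw [hN]
      push_cast
      ring
    rw [e]
  rw [Finset.sum_congr rfl fun s _ => h2 s, h1, sum_three]
  have h3 : ∀ i s : ℕ, g (i + 3 * s) = tc u ^ q *
      ((W a b0 b2 1 1 1 f l (((u + N * i) + 3 ^ (h + 1) * s : ℕ) : ℤ) y)⁻¹) ^ q := by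
    intro i s
    simp only [hg]
    rw [mul_pow]
    have e : (u : ℤ) + N * (i + 3 * s) = (((u + N * i) + 3 ^ (h + 1) * s : ℕ) : ℤ) := by
      rw [hN]; push_cast; ring
    rw [e]
  have hlt' : ∀ i ∈ Finset.range 3, u + N * i < 3 ^ (h + 1) := by
    intro i hi
    rw [Finset.mem_range] at hi
    have e : (3 : ℕ) ^ (h + 1) = N * 3 := by rw [hN]; ring
    rw [e]
    have : N * i ≤ N * 2 := Nat.mul_le_mul_left _ (by omega)
    omega
  have htp := htc u hlt
  calc ∑ i ∈ Finset.range 3, ∑ s ∈ Finset.range (3 ^ l), g (i + 3 * s)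
      = ∑ i ∈ Finset.range 3, tc u ^ q * ∑ s ∈ Finset.range (3 ^ l),
          ((W a b0 b2 1 1 1 f l (((u + N * i) + 3 ^ (h + 1) * s : ℕ) : ℤ) y)⁻¹) ^ q := by
        apply Finset.sum_congr rfl
        intro i _
        rw [Finset.mul_sum]
        exact Finset.sum_congr rfl fun s _ => h3 i s
    _ ≤ ∑ i ∈ Finset.range 3, tc u ^ q * (3 ^ l * (C / c (u + N * i)) ^ q) := by
        apply Finset.sum_le_sum
        intro i hi
        exact mul_le_mul_of_nonneg_left (ih _ (hlt' i hi)) (by positivity)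
    _ = 3 ^ l * C ^ q * ∑ i ∈ Finset.range 3, (tc u / c (u + N * i)) ^ q := by
        rw [Finset.mul_sum]
        apply Finset.sum_congr rfl
        intro i _
        rw [div_pow, div_pow]
        ring
    _ ≤ 3 ^ l * C ^ q * 3 := mul_le_mul_of_nonneg_left (hm u hlt) (by positivity)
    _ = 3 ^ (l + 1) * C ^ q := by ring

/-- the step -/
theorem step {q : ℕ} {a b T1 T2 C c0 : ℝ} (ha : 0 < a) (hb : 0 < b) (h1 : 0 < T1) (h2 : 0 < T2)
    (hC : 0 ≤ C) (hc0 : 0 < c0) (hT : c0 ≤ a * T1 + b * T2) (n : ℕ) (X Y : ℕ → ℝ)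
    (hX : ∀ s, 0 < X s) (hY : ∀ s, 0 < Y s)
    (hXs : ∑ s ∈ Finset.range (3 ^ n), (T1 * (X s)⁻¹) ^ q ≤ 3 ^ n * C ^ q)
    (hYs : ∑ s ∈ Finset.range (3 ^ n), (T2 * (Y s)⁻¹) ^ q ≤ 3 ^ n * C ^ q) :
    ∑ s ∈ Finset.range (3 ^ n), ((a * X s + b * Y s)⁻¹) ^ q ≤ 3 ^ n * (C / c0) ^ q := by
  set T := a * T1 + b * T2 with hT'
  have hTp : 0 < T := by positivity
  calc ∑ s ∈ Finset.range (3 ^ n), ((a * X s + b * Y s)⁻¹) ^ q
      ≤ ∑ s ∈ Finset.range (3 ^ n), (T⁻¹) ^ q *
          (a * T1 / T * (T1 * (X s)⁻¹) ^ q + b * T2 / T * (T2 * (Y s)⁻¹) ^ q) :=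
        Finset.sum_le_sum fun s _ => jens ha hb h1 h2 (hX s) (hY s) q
    _ = (T⁻¹) ^ q * (a * T1 / T * ∑ s ∈ Finset.range (3 ^ n), (T1 * (X s)⁻¹) ^ q +
          b * T2 / T * ∑ s ∈ Finset.range (3 ^ n), (T2 * (Y s)⁻¹) ^ q) := by
        rw [← Finset.mul_sum, Finset.sum_add_distrib, Finset.mul_sum, Finset.mul_sum]
    _ ≤ (T⁻¹) ^ q * (a * T1 / T * (3 ^ n * C ^ q) + b * T2 / T * (3 ^ n * C ^ q)) := by
        gcongr
    _ = (T⁻¹) ^ q * (3 ^ n * C ^ q) := by
        rw [← add_mul, ← add_div, ← hT', div_self hTp.ne', one_mul]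
    _ = 3 ^ n * (C / T) ^ q := by
        rw [div_eq_mul_inv, mul_pow]; ring
    _ ≤ 3 ^ n * (C / c0) ^ q := by
        gcongr

end NegAux

open NegAux

/-- negative moments of the weighted numbers of endpoints -/
theorem neg_moment {h : ℕ} {c tc : ℕ → ℝ} {q : ℕ} {a b0 b2 C : ℝ}
    (ha : 0 < a) (hb0 : 0 < b0) (hb2 : 0 < b2)
    (hc : ∀ m < 3 ^ (h + 1), 0 < c m) (hC : ∀ m < 3 ^ (h + 1), c m ≤ C)
    (htc : ∀ m < 3 ^ h, 0 < tc m)
    (hi : ∀ m < 3 ^ (h + 1), c m ≤ a * c ((4 * m + 2) % 3 ^ (h + 1)) +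
      (if m % 3 = 0 then b0 * tc ((4 * (m / 3)) % 3 ^ h)
        else if m % 3 = 2 then b2 * tc ((2 * (m / 3) + 1) % 3 ^ h) else 0))
    (hm : ∀ m < 3 ^ h, ∑ i ∈ Finset.range 3, (tc m / c (m + 3 ^ h * i)) ^ q ≤ 3)
    (f l m : ℕ) (hmlt : m < 3 ^ (h + 1)) (y : ℝ) :
    ∑ s ∈ Finset.range (3 ^ l), ((W a b0 b2 1 1 1 f l ((m + 3 ^ (h + 1) * s : ℕ) : ℤ) y)⁻¹) ^ q ≤
      3 ^ l * (C / c m) ^ q := by
  have hC0 : 0 < C := by
    have h0 : 0 < 3 ^ (h + 1) := by positivity
    exact (hc 0 h0).trans_le (hC 0 h0)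
  have hone : ∀ (l : ℕ) (m : ℕ), m < 3 ^ (h + 1) →
      ∑ _s ∈ Finset.range (3 ^ l), (((1 : ℝ))⁻¹) ^ q ≤ 3 ^ l * (C / c m) ^ q := by
    intro l m hm'
    have h1 : (1 : ℝ) ≤ C / c m := by rw [one_le_div (hc m hm')]; exact hC m hm'
    have h2 : (1 : ℝ) ≤ (C / c m) ^ q := one_le_pow₀ h1
    rw [inv_one, one_pow, Finset.sum_const, Finset.card_range, nsmul_eq_mul, mul_one]
    push_cast
    calc (3 : ℝ) ^ l = 3 ^ l * 1 := by ring
      _ ≤ _ := mul_le_mul_of_nonneg_left h2 (by positivity)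
  induction f generalizing l m y with
  | zero =>
    simp only [W]
    exact hone l m hmlt
  | succ f ih =>
    cases l with
    | zero =>
      simp only [W, ite_self]
      exact hone 0 m hmlt
    | succ l =>
      by_cases hy : y ≤ 1
      · simp only [W, if_pos hy]
        exact hone (l + 1) m hmlt
      · simp only [W, if_neg hy]
        have hcm := hc m hmlt
        have hi' := hi m hmlt
        have hm4 : (4 * m + 2) % 3 ^ (h + 1) < 3 ^ (h + 1) := Nat.mod_lt _ (by positivity)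
        have hc4 := hc _ hm4
        have hA := same_sum (q := q) (a := a) (b0 := b0) (b2 := b2) (C := C) hc l m (y / 4) f
          (fun m hm' => ih (l + 1) m hm' (y / 4))
        have hNN : (3 : ℕ) ^ (h + 1) = 3 * 3 ^ h := by ring
        have hmod : ∀ s : ℕ, (((m + 3 ^ (h + 1) * s : ℕ) : ℤ)) % 3 = ((m % 3 : ℕ) : ℤ) := by
          intro s
          rw [hNN, mul_assoc]
          push_cast
          omega
        have hdiv : ∀ s : ℕ, (((m + 3 ^ (h + 1) * s : ℕ) : ℤ)) / 3 =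
            ((m / 3 : ℕ) : ℤ) + 3 ^ h * s := by
          intro s
          rw [hNN, mul_assoc]
          push_cast
          omega
        by_cases h0 : m % 3 = 0
        · rw [if_pos h0] at hi'
          have hB := next_sum (q := q) (a := a) (b0 := b0) (b2 := b2) htc hC0.le hm l
            (y * (3 / 4)) f (fun m hm' => ih l m hm' (y * (3 / 4))) 4 (4 * (m / 3)) (Or.inl rfl)
            (fun s => 4 * ((((m + 3 ^ (h + 1) * s : ℕ) : ℤ)) / 3)) (by
              intro s; rw [hdiv]; push_cast; ring)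
          have hlt : (4 * (m / 3)) % 3 ^ h < 3 ^ h := Nat.mod_lt _ (by positivity)
          have := step ha hb0 hc4 (htc _ hlt) hC0.le hcm hi' (l + 1) _ _
            (fun s => W_pos ha hb0 hb2 f (l + 1) _ _) (fun s => W_pos ha hb0 hb2 f l _ _) hA hB
          refine le_trans (le_of_eq ?_) this
          apply Finset.sum_congr rfl
          intro s _
          rw [if_pos]
          rw [hmod s, h0]; rfl
        · by_cases h2 : m % 3 = 2
          · rw [if_neg h0, if_pos h2] at hi'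
            have hB := next_sum (q := q) (a := a) (b0 := b0) (b2 := b2) htc hC0.le hm l
              (y * (3 / 2)) f (fun m hm' => ih l m hm' (y * (3 / 2))) 2 (2 * (m / 3) + 1)
              (Or.inr rfl)
              (fun s => 2 * ((((m + 3 ^ (h + 1) * s : ℕ) : ℤ)) / 3) + 1) (by
                intro s; rw [hdiv]; push_cast; ring)
            have hlt : (2 * (m / 3) + 1) % 3 ^ h < 3 ^ h := Nat.mod_lt _ (by positivity)
            have := step ha hb2 hc4 (htc _ hlt) hC0.le hcm hi' (l + 1) _ _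
              (fun s => W_pos ha hb0 hb2 f (l + 1) _ _) (fun s => W_pos ha hb0 hb2 f l _ _) hA hB
            refine le_trans (le_of_eq ?_) this
            apply Finset.sum_congr rfl
            intro s _
            rw [if_neg, if_pos]
            · rw [hmod s, h2]; rfl
            · rw [hmod s, h2]; norm_num
          · rw [if_neg h0, if_neg h2, add_zero] at hi'
            have e : ∀ s : ℕ, (a * W a b0 b2 1 1 1 f (l + 1)
                (4 * ((m + 3 ^ (h + 1) * s : ℕ) : ℤ) + 2) (y / 4) +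
                if ((m + 3 ^ (h + 1) * s : ℕ) : ℤ) % 3 = 0 then
                  b0 * W a b0 b2 1 1 1 f l (4 * (((m + 3 ^ (h + 1) * s : ℕ) : ℤ) / 3)) (y * (3 / 4))
                else if ((m + 3 ^ (h + 1) * s : ℕ) : ℤ) % 3 = 2 then
                  b2 * W a b0 b2 1 1 1 f l (2 * (((m + 3 ^ (h + 1) * s : ℕ) : ℤ) / 3) + 1)
                    (y * (3 / 2)) else 0) =
                a * W a b0 b2 1 1 1 f (l + 1)
                  (4 * ((m + 3 ^ (h + 1) * s : ℕ) : ℤ) + 2) (y / 4) := by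
              intro s
              rw [if_neg, if_neg, add_zero]
              · rw [hmod s]; omega
              · rw [hmod s]; omega
            rw [Finset.sum_congr rfl fun s _ => by rw [e s]]
            set c4 := c ((4 * m + 2) % 3 ^ (h + 1)) with hc4'
            calc ∑ s ∈ Finset.range (3 ^ (l + 1)), ((a * W a b0 b2 1 1 1 f (l + 1)
                  (4 * ((m + 3 ^ (h + 1) * s : ℕ) : ℤ) + 2) (y / 4))⁻¹) ^ q
                = ((a * c4)⁻¹) ^ q * ∑ s ∈ Finset.range (3 ^ (l + 1)), (c4 *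
                  (W a b0 b2 1 1 1 f (l + 1)
                  (4 * ((m + 3 ^ (h + 1) * s : ℕ) : ℤ) + 2) (y / 4))⁻¹) ^ q := by
                  rw [Finset.mul_sum]
                  apply Finset.sum_congr rfl
                  intro s _
                  rw [← mul_pow]
                  congr 1
                  rw [mul_inv, mul_inv]
                  field_simp
              _ ≤ ((a * c4)⁻¹) ^ q * (3 ^ (l + 1) * C ^ q) :=
                  mul_le_mul_of_nonneg_left hA (by positivity)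
              _ ≤ ((c m)⁻¹) ^ q * (3 ^ (l + 1) * C ^ q) := by
                  gcongr
              _ = 3 ^ (l + 1) * (C / c m) ^ q := by
                  rw [div_eq_mul_inv, mul_pow]; ring

end Pool.Agent.N905.KL
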