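import Pool.Agent.N905.KL.Defs

/-!
# Sums of a nonnegative weight over the descendants are superadditive (helper816 for KLP)
-/

set_option autoImplicit false

namespace Pool.Agent.N905.KL

open Pool.Agent.Helper894.Three

theorem supAdd_Ph {r : ℤ} (hr : NP r) {ω : ℤ → ℝ} (hω : ∀ n, 0 ≤ ω n) (X : ℝ) :
    SupAdd r (Ph ω X) where
  nonneg n := Finset.sum_nonneg fun x _ => hω x
  one t _ := by
    unfold Ph
    refine Finset.sum_le_sum_of_subset_of_nonneg ?_ fun x _ _ => hω x
    intro x hx
    rw [Set.Finite.mem_toFinset] at hx ⊢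
    exact ⟨desc_c1 _ hx.1, hx.2⟩
  two t e hn _ _ := by
    classical
    unfold Ph
    obtain ⟨k, hk⟩ := hn.1
    have hnp : NP (3 * t + 2) := hr.of_iterate hk
    rw [← Finset.sum_union]
    · refine Finset.sum_le_sum_of_subset_of_nonneg ?_ fun x _ _ => hω x
      intro x hx
      rw [Finset.mem_union, Set.Finite.mem_toFinset, Set.Finite.mem_toFinset] at hx
      rw [Set.Finite.mem_toFinset]
      rcases hx with hx | hx
      · exact ⟨desc_c1 _ hx.1, hx.2⟩
      · exact ⟨desc_c2 _ _ hx.1, hx.2⟩
    · rw [Finset.disjoint_left]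
      intro x h1 h2
      rw [Set.Finite.mem_toFinset] at h1 h2
      exact Set.disjoint_left.1 (disj hnp e) h1.1 h2.1

end Pool.Agent.N905.KL
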